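import Pool.Agent.Helper36_X1.Stmts1

/-!
# Squad X1, module FAC
-/

open scoped BigOperators

noncomputable section

namespace Pool.Agent.PP.X1.H5

open Pool.Agent.PP.X1

variable {ℓ : ℕ} {G : Type} [Group G] (R : RGD ℓ G)

/-- the roots which `w⁻¹` makes negative -/
def IN (w : List (Fin R.r)) : Set R.E := {b | b ∈ R.pos ∧ R.sw w.reverse b ∈ R.neg}

/-- the roots which `w⁻¹` leaves positive -/
def IP (w : List (Fin R.r)) : Set R.E := {b | b ∈ R.pos ∧ R.sw w.reverse b ∈ R.pos}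

theorem IN_eq (w : List (Fin R.r)) :
    IN R w = R.sw w '' ((R.sw w.reverse '' R.pos) ∩ R.neg) := by
  ext b
  constructor
  · rintro ⟨h1, h2⟩
    exact ⟨R.sw w.reverse b, ⟨⟨b, h1, rfl⟩, h2⟩, R.sw_sw_reverse w b⟩
  · rintro ⟨c, ⟨⟨b', hb', rfl⟩, h2⟩, rfl⟩
    rw [R.sw_sw_reverse]
    exact ⟨hb', h2⟩

theorem IP_eq (w : List (Fin R.r)) :
    IP R w = R.sw w '' ((R.sw w.reverse '' R.pos) ∩ R.pos) := by
  ext b
  constructor
  · rintro ⟨h1, h2⟩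
    exact ⟨R.sw w.reverse b, ⟨⟨b, h1, rfl⟩, h2⟩, R.sw_sw_reverse w b⟩
  · rintro ⟨c, ⟨⟨b', hb', rfl⟩, h2⟩, rfl⟩
    rw [R.sw_sw_reverse]
    exact ⟨hb', h2⟩

theorem conj_iff {w : List (Fin R.r)} {A : Set R.E} (hA : A ⊆ R.Φ) {x : G} :
    (R.nw w)⁻¹ * x * R.nw w ∈ R.gp A ↔ x ∈ R.gp (R.sw w '' A) := by
  rw [← R.gp_nw (w := w) hA]
  have : R.nw w * ((R.nw w)⁻¹ * x * R.nw w) * (R.nw w)⁻¹ = x := by group
  rw [this]

theorem IN_V {w : List (Fin R.r)} {x : G} (hx : x ∈ R.gp (IN R w)) :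
    (R.nw w)⁻¹ * x * R.nw w ∈ R.V := by
  have h1 : (R.nw w)⁻¹ * x * R.nw w ∈ R.gp ((R.sw w.reverse '' R.pos) ∩ R.neg) := by
    rw [conj_iff R (fun b hb => hb.2.1), ← IN_eq]
    exact hx
  exact R.gp_mono Set.inter_subset_right h1

theorem IP_U {w : List (Fin R.r)} {x : G} (hx : x ∈ R.gp (IP R w)) :
    (R.nw w)⁻¹ * x * R.nw w ∈ R.U := by
  have h1 : (R.nw w)⁻¹ * x * R.nw w ∈ R.gp ((R.sw w.reverse '' R.pos) ∩ R.pos) := by
    rw [conj_iff R (fun b hb => hb.2.1), ← IP_eq]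
    exact hx
  exact R.gp_mono Set.inter_subset_right h1

theorem IN_U {w : List (Fin R.r)} {x : G} (hx : x ∈ R.gp (IN R w)) : x ∈ R.U :=
  R.gp_mono (fun _ h => h.1) hx

theorem IP_U' {w : List (Fin R.r)} {x : G} (hx : x ∈ R.gp (IP R w)) : x ∈ R.U :=
  R.gp_mono (fun _ h => h.1) hx

theorem eq_one_of {x : G} (h1 : x ∈ R.U) (h2 : x ∈ R.V) : x = 1 := by
  have : x ∈ R.U ⊓ R.V := ⟨h1, h2⟩
  rw [R.U_inf_V] at this
  exact this

theorem eq_one_of_conj {g x : G} (h1 : g⁻¹ * x * g ∈ R.U) (h2 : g⁻¹ * x * g ∈ R.V) : x = 1 := by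
  have h := eq_one_of R h1 h2
  have h3 : x = g * (g⁻¹ * x * g) * g⁻¹ := by group
  rw [h3, h]
  group

/-- `U = gp I' · gp I` -/
theorem fac0 (hpd2 : Pd2Stmt) (hclo : CloStmt) (w : List (Fin R.r)) {u : G} (hu : u ∈ R.U) :
    ∃ x ∈ R.gp (IP R w), ∃ y ∈ R.gp (IN R w), u = x * y := by
  obtain ⟨hc1, -, -, -, -, hc6, -⟩ := hclo ℓ G R
  have hA : R.Clo (R.sw w.reverse '' R.pos) := hc6 _ _ hc1
  have himg : R.sw w '' (R.sw w.reverse '' R.pos) = R.pos := by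
    rw [Set.image_image]
    simp only [R.sw_sw_reverse, Set.image_id']
  have hu' : (R.nw w)⁻¹ * u * R.nw w ∈ R.gp (R.sw w.reverse '' R.pos) := by
    rw [conj_iff R hA.sub, himg]
    exact hu
  obtain ⟨x, hx, y, hy, hxy⟩ := hpd2 ℓ G R w _ hA (by
    rintro b ⟨c, hc, rfl⟩
    rw [R.sw_sw_reverse]
    exact hc) _ hu'
  refine ⟨R.nw w * x * (R.nw w)⁻¹, ?_, R.nw w * y * (R.nw w)⁻¹, ?_, ?_⟩
  · rw [IP_eq, R.gp_nw (fun b hb => hb.2.1)]
    exact hx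
  · rw [IN_eq, R.gp_nw (fun b hb => hb.2.1)]
    exact hy
  · have h1 : u = R.nw w * ((R.nw w)⁻¹ * u * R.nw w) * (R.nw w)⁻¹ := by group
    rw [h1, hxy]
    group

theorem fac3 (hpd2 : Pd2Stmt) (hclo : CloStmt) (w : List (Fin R.r)) {u : G} (hu : u ∈ R.U) :
    ∃ x ∈ R.gp (IN R w), ∃ y ∈ R.gp (IP R w), u = x * y := by
  obtain ⟨x, hx, y, hy, hxy⟩ := fac0 R hpd2 hclo w (R.U.inv_mem hu)
  refine ⟨y⁻¹, inv_mem hy, x⁻¹, inv_mem hx, ?_⟩
  rw [← mul_inv_rev, ← hxy, inv_inv]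

theorem sw_snoc (i : Fin R.r) (w : List (Fin R.r)) (b : R.E) :
    R.sw (i :: w).reverse b = R.sw w.reverse (R.s i b) := by
  rw [List.reverse_cons, R.sw_append]
  rfl

theorem n_iff {i : Fin R.r} {A : Set R.E} (hA : A ⊆ R.Φ) {x : G} :
    R.n i * x * (R.n i)⁻¹ ∈ R.gp (R.s i '' A) ↔ x ∈ R.gp A := by
  have h := R.gp_nw (w := [i]) hA (x := x)
  have h1 : R.nw [i] = R.n i := by rw [R.nw_cons, R.nw_nil, mul_one]
  have h2 : R.sw [i] '' A = R.s i '' A := rfl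
  rw [h1, h2] at h
  exact h

/-- FAC. -/
theorem fac (hpd2 : Pd2Stmt) (hpel : PelStmt) (hclo : CloStmt) : FacStmt := by
  intro ℓ G _ R w
  have e1 : {b | b ∈ R.pos ∧ R.sw w.reverse b ∈ R.neg} = IN R w := rfl
  have e2 : {b | b ∈ R.pos ∧ R.sw w.reverse b ∈ R.pos} = IP R w := rfl
  rw [e1, e2]
  have part4 : R.gp (IN R w) ⊓ R.gp (IP R w) = ⊥ := by
    rw [eq_bot_iff]
    rintro x ⟨h1, h2⟩
    exact eq_one_of_conj R (IP_U R h2) (IN_V R h1)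
  refine ⟨?_, ?_, fun u hu => fac3 R hpd2 hclo w hu, part4, ?_⟩
  · intro x
    constructor
    · rintro ⟨h1, h2⟩
      obtain ⟨x₁, hx₁, y₁, hy₁, rfl⟩ := fac3 R hpd2 hclo w h1
      have h3 : (R.nw w)⁻¹ * y₁ * R.nw w =
          ((R.nw w)⁻¹ * x₁ * R.nw w)⁻¹ * ((R.nw w)⁻¹ * (x₁ * y₁) * R.nw w) := by group
      have h4 : (R.nw w)⁻¹ * y₁ * R.nw w ∈ R.V := by
        rw [h3]
        exact mul_mem (inv_mem (IN_V R hx₁)) h2
      have h5 := eq_one_of_conj R (IP_U R hy₁) h4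
      rw [h5, mul_one]
      exact hx₁
    · intro h
      exact ⟨IN_U R h, IN_V R h⟩
  · intro x
    constructor
    · rintro ⟨h1, h2⟩
      obtain ⟨x₁, hx₁, y₁, hy₁, rfl⟩ := fac3 R hpd2 hclo w h1
      have h3 : (R.nw w)⁻¹ * x₁ * R.nw w =
          ((R.nw w)⁻¹ * (x₁ * y₁) * R.nw w) * ((R.nw w)⁻¹ * y₁ * R.nw w)⁻¹ := by group
      have h4 : (R.nw w)⁻¹ * x₁ * R.nw w ∈ R.U := by
        rw [h3]
        exact mul_mem h2 (inv_mem (IP_U R hy₁))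
      have h5 := eq_one_of_conj R h4 (IN_V R hx₁)
      rw [h5, one_mul]
      exact hy₁
    · intro h
      exact ⟨IP_U' R h, IP_U R h⟩
  · intro i hi
    have e3 : {b | b ∈ R.pos ∧ R.sw (i :: w).reverse b ∈ R.neg} = IN R (i :: w) := rfl
    rw [e3]
    -- the roots of `IN R w` are not on the ray
    have hray : ∀ b ∈ IN R w, b ∉ R.ray i := by
      rintro b ⟨h1, h2⟩ ⟨h3, c, hc, rfl⟩
      rw [R.sw_smul] at h2
      refine R.not_pos_neg ⟨h2.1, R.nn_smul hc.le hi.2⟩ h2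
    have himg : R.s i '' IN R w ⊆ IN R (i :: w) := by
      rintro _ ⟨b, hb, rfl⟩
      refine ⟨R.s_pos hb.1 (hray b hb), ?_⟩
      rw [sw_snoc, R.s_s]
      exact hb.2
    have hai : R.a i ∈ IN R (i :: w) := by
      refine ⟨R.a_pos i, ?_⟩
      rw [sw_snoc, R.s_self]
      refine ⟨R.sw_mem (R.neg_a_mem i), ?_⟩
      rw [R.sw_neg, neg_neg]
      exact hi.2
    obtain ⟨p1, p2, -, -, -, p6, -⟩ := hpel ℓ G R i
    obtain ⟨hc1, hc2, -, -, hc5, hc6, -⟩ := hclo ℓ G R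
    have hclosed : R.Clo (IN R (i :: w)) := by
      have h1 : IN R (i :: w) = R.pos ∩ R.sw (i :: w) '' R.neg := by
        ext b
        constructor
        · rintro ⟨h1, h2⟩
          exact ⟨h1, _, h2, R.sw_sw_reverse _ b⟩
        · rintro ⟨h1, c, hc, rfl⟩
          refine ⟨h1, ?_⟩
          rw [R.sw_reverse_sw]
          exact hc
      rw [h1]
      exact hc5 _ _ hc1 (hc6 _ _ hc2)
    have hout : R.s i '' IN R w ⊆ R.pos \ R.ray i := by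
      rintro _ ⟨b, hb, rfl⟩
      exact ⟨R.s_pos hb.1 (hray b hb), R.s_not_ray hb.1⟩
    have hsub : IN R w ⊆ R.Φ := fun b hb => hb.1.1
    refine ⟨?_, R.X_le_gp hai, ?_⟩
    · intro x hx
      exact R.gp_mono himg ((n_iff R hsub).2 hx)
    · intro x hx
      obtain ⟨y, hy, z', hz', rfl⟩ := p2 _ hclosed (fun b hb => hb.1) x hx
      have hz'' : z' ∈ R.gp (R.s i '' IN R w) := by
        refine R.gp_mono ?_ hz'
        rintro b ⟨⟨h1, h2⟩, h3⟩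
        refine ⟨R.s i b, ⟨R.s_pos h1 h3, ?_⟩, R.s_s i b⟩
        rw [sw_snoc] at h2
        exact h2
      have hzz : z' = R.n i * ((R.n i)⁻¹ * z' * R.n i) * (R.n i)⁻¹ := by group
      have hz : (R.n i)⁻¹ * z' * R.n i ∈ R.gp (IN R w) := by
        rw [← n_iff R hsub (i := i), ← hzz]
        exact hz''
      refine ⟨y, p6 _ hy, (R.n i)⁻¹ * z' * R.n i, hz, by rw [← hzz], ?_⟩
      intro y' hy' z₁ hz₁ heq
      have h1 : y⁻¹ * y' = z' * (R.n i * z₁ * (R.n i)⁻¹)⁻¹ := by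
        have : y' = y * z' * (R.n i * z₁ * (R.n i)⁻¹)⁻¹ := by
          rw [heq]
          group
        rw [this]
        group
      have h2 : y⁻¹ * y' ∈ R.X (R.a i) := mul_mem (inv_mem (p6 _ hy)) hy'
      have h3 : y⁻¹ * y' ∈ R.gp (R.pos \ R.ray i) := by
        rw [h1]
        exact mul_mem (R.gp_mono hout hz'')
          (inv_mem (R.gp_mono hout ((n_iff R hsub).2 hz₁)))
      have h4 := p1 _ h2 h3
      have h5 : y' = y := by
        have : y' = y * (y⁻¹ * y') := by group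
        rw [this, h4, mul_one]
      refine ⟨h5, ?_⟩
      rw [h5] at heq
      have h6 : z' = R.n i * z₁ * (R.n i)⁻¹ := by
        have h7 := mul_left_cancel heq
        exact h7
      rw [h6]
      group

end Pool.Agent.PP.X1.H5
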