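import Pool.Agent.Helper36_X1.Stmts2
import Pool.Agent.Helper20_PP.Ibr

/-!
# Squad X1, module CSF: the sum of the scalars over the irreducible characters of a parabolic
subgroup
-/

set_option autoImplicit false

open scoped BigOperators

noncomputable section

namespace Pool.Agent.PP.X1.H5

open Pool.Agent.Helper51_AWC Pool.Agent.Helper79_WRA Pool.Agent.PP Pool.Agent.PP.X1

section irr

variable {F H : Type} [Field F] [Group H] {n : ℕ}

theorem trace_ext {ρ : H →* Matrix (Fin n) (Fin n) F} (hρ : IsIrr ρ)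
    {A B : Matrix (Fin n) (Fin n) F} (h : ∀ x, (A * ρ x).trace = (B * ρ x).trace) : A = B := by
  rw [Matrix.ext_iff_trace_mul_right]
  intro M
  have hM : M ∈ Submodule.span F (Set.range ρ) := by rw [hρ.2]; trivial
  induction hM using Submodule.span_induction with
  | mem x hx => obtain ⟨g, rfl⟩ := hx; exact h g
  | zero => rw [mul_zero, mul_zero]
  | add x y _ _ hx hy => rw [mul_add, mul_add, Matrix.trace_add, Matrix.trace_add, hx, hy]
  | smul c x _ hx => rw [mul_smul_comm, mul_smul_comm, Matrix.trace_smul, Matrix.trace_smul, hx]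

theorem tr_ne {ρ : H →* Matrix (Fin n) (Fin n) F} (hρ : IsIrr ρ) : ∃ x, tr ρ x ≠ 0 := by
  by_contra hcon
  push Not at hcon
  have h1 : (1 : Matrix (Fin n) (Fin n) F) = 0 := trace_ext hρ fun x => by
    rw [one_mul, zero_mul, Matrix.trace_zero]
    exact hcon x
  have h2 := congrFun (congrFun h1 ⟨0, hρ.1⟩) ⟨0, hρ.1⟩
  rw [Matrix.one_apply_eq, Matrix.zero_apply] at h2
  exact one_ne_zero h2

theorem schur' {ρ : H →* Matrix (Fin n) (Fin n) F} (hρ : IsIrr ρ)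
    (A : Matrix (Fin n) (Fin n) F) (hA : ∀ h, A * ρ h = ρ h * A) :
    ∃ z : F, A = z • 1 := by
  have h1 : ∀ B : Matrix (Fin n) (Fin n) F, A * B = B * A := by
    intro B
    have hB : B ∈ Submodule.span F (Set.range ρ) := by rw [hρ.2]; trivial
    induction hB using Submodule.span_induction with
    | mem x hx => obtain ⟨h, rfl⟩ := hx; exact hA h
    | zero => rw [mul_zero, zero_mul]
    | add x y _ _ hx hy => rw [mul_add, add_mul, hx, hy]
    | smul c x _ hx => rw [mul_smul_comm, smul_mul_assoc, hx]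
  obtain ⟨z, hz⟩ := Matrix.mem_range_scalar_iff_commute_single'.mpr
    fun i j => (h1 (Matrix.single i j 1)).symm
  refine ⟨z, ?_⟩
  rw [← hz, Matrix.smul_one_eq_diagonal]
  rfl

end irr

variable {ℓ : ℕ} {F G : Type} [Field F] [Group G]

/-- the character of the representation with the label `(lam, K)` -/
def Rel (R : RGD ℓ G) (J : Finset (Fin R.r)) (φ : R.PJ J → F) (lam : R.B → F)
    (K : Finset (Fin R.r)) : Prop :=
  ∃ (k m : ℕ) (ρ : R.PJ J →* Matrix (Fin k) (Fin k) F) (σ : R.B →* Matrix (Fin m) (Fin m) F),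
    Lab R J ρ σ K ∧ φ = tr ρ ∧ lam = tr σ

theorem B_le (R : RGD ℓ G) (J : Finset (Fin R.r)) : R.B ≤ R.PJ J :=
  sup_le le_sup_left ((R.gp_mono Set.subset_union_left).trans le_sup_right)

/-- restriction of an automorphism -/
def rs (P : Subgroup G) (α : MulAut G) (h : ∀ g, α g ∈ P ↔ g ∈ P) : P →* P where
  toFun g := ⟨α g, (h g).2 g.2⟩
  map_one' := by
    ext
    show α ((1 : P) : G) = ((1 : P) : G)
    rw [P.coe_one, map_one]
  map_mul' x y := by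
    ext
    show α ((x * y : P) : G) = _
    rw [P.coe_mul, map_mul]
    rfl

theorem fxd_iff {P : Subgroup G} {α : MulAut G} (h : ∀ g, α g ∈ P ↔ g ∈ P) {n : ℕ}
    (ρ : P →* Matrix (Fin n) (Fin n) F) : Fxd P (tr ρ) α ↔ tr (ρ.comp (rs P α h)) = tr ρ := by
  constructor
  · intro hf
    funext g
    exact hf g (rs P α h g) rfl
  · intro he g g' hg
    have h1 : g' = rs P α h g := Subtype.ext hg
    rw [h1]
    exact congrFun he g

section ovr

/-- a central subgroup acts on the representation and on the label by the same scalars -/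
theorem ovr_iff {R : RGD ℓ G} {J : Finset (Fin R.r)} {k m : ℕ}
    {ρ : R.PJ J →* Matrix (Fin k) (Fin k) F} {σ : R.B →* Matrix (Fin m) (Fin m) F}
    {K : Finset (Fin R.r)} (hL : Lab R J ρ σ K) {Z : Subgroup G} (hZT : Z ≤ R.T)
    (hZ : Z ≤ Subgroup.center G) (ζ : G → F) :
    Ovr (R.PJ J) Z ζ (tr ρ) ↔ Ovr R.B Z ζ (tr σ) := by
  obtain ⟨hρ, hσ, -, X, Y, hYX, hX, -, -⟩ := hL
  have key : ∀ z (hz : z ∈ Z), ∃ s : F,
      ρ ⟨z, B_le R J (R.T_le_B (hZT hz))⟩ = s • 1 ∧ σ ⟨z, R.T_le_B (hZT hz)⟩ = s • 1 := by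
    intro z hz
    have hzB : z ∈ R.B := R.T_le_B (hZT hz)
    obtain ⟨s, hs⟩ := schur' hρ (ρ ⟨z, B_le R J hzB⟩) fun h => by
      rw [← map_mul, ← map_mul]
      congr 1
      ext
      exact (Subgroup.mem_center_iff.1 (hZ hz) h).symm
    refine ⟨s, hs, ?_⟩
    have h1 := hX z hzB
    rw [ro_mem ρ (B_le R J hzB), ro_mem σ hzB, hs, Matrix.smul_mul, Matrix.one_mul] at h1
    have h2 : Y * (s • X) = Y * (X * σ ⟨z, hzB⟩) := by rw [h1]
    rw [Matrix.mul_smul, hYX, ← Matrix.mul_assoc, hYX, Matrix.one_mul] at h2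
    exact h2.symm
  have e1 : ∀ z (hz : z ∈ Z) (s : F), ρ ⟨z, B_le R J (R.T_le_B (hZT hz))⟩ = s • 1 →
      ∀ g g' : R.PJ J, (g' : G) = z * g → tr ρ g' = s * tr ρ g := by
    intro z hz s hs g g' hg
    have h1 : g' = ⟨z, B_le R J (R.T_le_B (hZT hz))⟩ * g := Subtype.ext hg
    rw [h1, tr, map_mul, hs, smul_mul_assoc, one_mul, Matrix.trace_smul]
    rfl
  have e2 : ∀ z (hz : z ∈ Z) (s : F), σ ⟨z, R.T_le_B (hZT hz)⟩ = s • 1 →
      ∀ g g' : R.B, (g' : G) = z * g → tr σ g' = s * tr σ g := by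
    intro z hz s hs g g' hg
    have h1 : g' = ⟨z, R.T_le_B (hZT hz)⟩ * g := Subtype.ext hg
    rw [h1, tr, map_mul, hs, smul_mul_assoc, one_mul, Matrix.trace_smul]
    rfl
  constructor
  · intro h z hz g g' hg
    obtain ⟨s, h1, h2⟩ := key z hz
    obtain ⟨x, hx⟩ := tr_ne hρ
    have h3 := e1 z hz s h1 x (⟨z, B_le R J (R.T_le_B (hZT hz))⟩ * x) rfl
    have h4 := h z hz x (⟨z, B_le R J (R.T_le_B (hZT hz))⟩ * x) rfl
    have h5 : s = ζ z := mul_right_cancel₀ hx (h3.symm.trans h4)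
    rw [← h5]
    exact e2 z hz s h2 g g' hg
  · intro h z hz g g' hg
    obtain ⟨s, h1, h2⟩ := key z hz
    obtain ⟨x, hx⟩ := tr_ne hσ
    have h3 := e2 z hz s h2 x (⟨z, R.T_le_B (hZT hz)⟩ * x) rfl
    have h4 := h z hz x (⟨z, R.T_le_B (hZT hz)⟩ * x) rfl
    have h5 : s = ζ z := mul_right_cancel₀ hx (h3.symm.trans h4)
    rw [← h5]
    exact e1 z hz s h1 g g' hg

end ovr

theorem map_symm_iff {r : ℕ} (π : Equiv.Perm (Fin r)) (K : Finset (Fin r)) :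
    K.map π.symm.toEmbedding = K ↔ K.map π.toEmbedding = K := by
  have h1 : (K.map π.symm.toEmbedding).map π.toEmbedding = K := by
    rw [Finset.map_map]
    ext x
    simp
  have h2 : (K.map π.toEmbedding).map π.symm.toEmbedding = K := by
    rw [Finset.map_map]
    ext x
    simp
  constructor
  · intro h
    rw [h] at h1
    exact h1
  · intro h
    rw [h] at h2
    exact h2

open Classical in
/-- CSF. -/
theorem csf (h1 : Lb1Stmt) (h3 : Lb3Stmt) (h4 : Lb4Stmt) (h5 : Lb5Stmt) (h6 : Lb6Stmt)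
    (h7 : Lb7Stmt) (ht : TceStmt) (hp : PrmxStmt) : CsfStmt := by
  intro ℓ _ F _ hF G _ _ R J q hqJ Z hZT hZc ζ α β c hζ hα hβ hc hJα hJβ hcom τ
  have hPα : ∀ g, α g ∈ R.PJ J ↔ g ∈ R.PJ J := by
    intro g
    have := ((hp ℓ G R α hα).1 J g).1
    rwa [hJα] at this
  have hPβ : ∀ g, β g ∈ R.PJ J ↔ g ∈ R.PJ J := by
    intro g
    have := ((hp ℓ G R β hβ).1 J g).1
    rwa [hJβ] at this
  have hBα := (hp ℓ G R α hα).2.1
  have hBβ := (hp ℓ G R β hβ).2.1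
  -- labels
  have ra : ∀ φ ∈ IBr F (R.PJ J), ∃ lam K, Rel R J φ lam K := by
    rintro φ ⟨k, ρ, hρ, rfl⟩
    obtain ⟨m, σ, K, hL⟩ := (h1 ℓ F hF G R J).1 k ρ hρ
    exact ⟨tr σ, K, k, m, ρ, σ, hL, rfl, rfl⟩
  have rb : ∀ (φ : R.PJ J → F) (lam : R.B → F) (K : Finset (Fin R.r)) (lam' : R.B → F)
      (K' : Finset (Fin R.r)), Rel R J φ lam K → Rel R J φ lam' K' → lam = lam' ∧ K = K' := by
    rintro φ lam K lam' K' ⟨k, m, ρ, σ, hL, hφ, rfl⟩ ⟨k', m', ρ', σ', hL', hφ', rfl⟩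
    exact h4 ℓ F hF G R J k k' m m' ρ ρ' σ σ' K K' hL hL' (hφ.symm.trans hφ')
  have rc : ∀ (φ φ' : R.PJ J → F) (lam : R.B → F) (K : Finset (Fin R.r)), Rel R J φ lam K → Rel R J φ' lam K → φ = φ' := by
    rintro φ φ' lam K ⟨k, m, ρ, σ, hL, rfl, hl⟩ ⟨k', m', ρ', σ', hL', rfl, hl'⟩
    exact h3 ℓ F hF G R J k k' m m' ρ ρ' σ σ' K hL hL' (hl.symm.trans hl')
  have rd : ∀ lam ∈ IBr F R.B, ∀ K, K ⊆ J → K ⊆ Ms R lam → ∃ φ, Rel R J φ lam K := by
    rintro lam ⟨m, σ, hσ, rfl⟩ K hKJ hKM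
    obtain ⟨k, ρ, hL⟩ := h5 ℓ F hF G R J K hKJ m σ hσ (by
      intro i hi t hti
      have h8 := (Finset.mem_filter.1 (hKM hi)).2 t hti
      have htB : t ∈ R.B := R.T_le_B hti.1
      rw [ro_mem σ htB]
      refine trace_ext hσ fun b => ?_
      rw [← map_mul, one_mul]
      exact h8 b (⟨t, htB⟩ * b) rfl)
    exact ⟨tr ρ, k, m, ρ, σ, hL, rfl, rfl⟩
  have re : ∀ (φ : R.PJ J → F) (lam : R.B → F) (K : Finset (Fin R.r)), Rel R J φ lam K → K ⊆ J ∧ K ⊆ Ms R lam ∧ φ ∈ IBr F (R.PJ J) ∧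
      lam ∈ IBr F R.B := by
    rintro φ lam K ⟨k, m, ρ, σ, hL, rfl, rfl⟩
    refine ⟨hL.2.2.1, ?_, ⟨k, ρ, hL.1, rfl⟩, ⟨m, σ, hL.2.1, rfl⟩⟩
    intro i hi
    refine Finset.mem_filter.2 ⟨Finset.mem_univ _, fun t hti b b' hb => ?_⟩
    have htB : t ∈ R.B := R.T_le_B hti.1
    have h8 := ((h1 ℓ F hF G R J).2 k m ρ σ K hL).1 i hi t hti
    rw [ro_mem σ htB] at h8
    have h9 : b' = ⟨t, htB⟩ * b := Subtype.ext hb
    rw [h9, tr, map_mul, h8, one_mul]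
    rfl
  have rf : ∀ (φ : R.PJ J → F) (lam : R.B → F) (K : Finset (Fin R.r)), Rel R J φ lam K → (Ovr (R.PJ J) Z ζ φ ↔ Ovr R.B Z ζ lam) := by
    rintro φ lam K ⟨k, m, ρ, σ, hL, rfl, rfl⟩
    exact ovr_iff hL hZT hZc ζ
  have rg : ∀ γ : MulAut G, (∀ u, γ u ∈ R.U ↔ u ∈ R.U) → J.map (piA R γ).toEmbedding = J →
      (∀ g, γ g ∈ R.PJ J ↔ g ∈ R.PJ J) → (∀ b, γ b ∈ R.B ↔ b ∈ R.B) →
      ∀ (φ : R.PJ J → F) (lam : R.B → F) (K : Finset (Fin R.r)), Rel R J φ lam K →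
        (Fxd (R.PJ J) φ γ ↔ Fxd R.B lam γ ∧ K.map (piA R γ).toEmbedding = K) := by
    rintro γ hγ hJγ hPγ hBγ φ lam K ⟨k, m, ρ, σ, hL, rfl, rfl⟩
    have hL' := h7 ℓ F hF G R J γ hγ hJγ k m ρ (ρ.comp (rs _ γ hPγ)) σ (σ.comp (rs _ γ hBγ)) K hL
      (fun g g' hg => by
        have : g' = rs _ γ hPγ g := Subtype.ext hg
        rw [this]
        rfl)
      (fun g g' hg => by
        have : g' = rs _ γ hBγ g := Subtype.ext hg
        rw [this]
        rfl)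
    rw [fxd_iff hPγ ρ, fxd_iff hBγ σ, ← map_symm_iff]
    constructor
    · intro h
      exact h4 ℓ F hF G R J k k m m _ ρ _ σ _ K hL' hL h
    · rintro ⟨h8, h9⟩
      rw [h9] at hL'
      exact h3 ℓ F hF G R J k k m m _ ρ _ σ K hL' hL h8
  have rh : ∀ (φ : R.PJ J → F) (lam : R.B → F) (K : Finset (Fin R.r)), Rel R J φ lam K → ((q → SZJ R φ) ↔ (q → K ≠ Finset.univ)) := by
    intro φ lam K hR
    by_cases hq : q
    · have hJ := hqJ hq
      subst hJ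
      have : SZJ R φ ↔ K ≠ Finset.univ := by
        obtain ⟨k, m, ρ, σ, hL, rfl, rfl⟩ := hR
        constructor
        · rintro ⟨k', ρ', hρ', htr, hs⟩
          obtain ⟨m', σ', K', hL'⟩ := (h1 ℓ F hF G R Finset.univ).1 k' ρ' hρ'
          have h8 := (h4 ℓ F hF G R Finset.univ k k' m m' ρ ρ' σ σ' K K' hL hL' htr.symm).2
          rw [h8]
          exact (((h6 ℓ F hF G R k' ρ' hρ').2 m' σ' K' hL').1 hs)
        · intro hK
          exact ⟨k, ρ, hL.1, rfl, ((h6 ℓ F hF G R k ρ hL.1).2 m σ K hL).2 hK⟩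
      exact imp_congr_right fun _ => this
    · exact ⟨fun _ h => absurd h hq, fun _ h => absurd h hq⟩
  have ri : ∀ (φ : R.PJ J → F) (lam : R.B → F) (K : Finset (Fin R.r)), Rel R J φ lam K → Fxd (R.PJ J) φ α → Fxd (R.PJ J) φ β →
      tca (R.PJ J) φ α β c = tca R.B lam α β c := by
    rintro φ lam K ⟨k, m, ρ, σ, hL, rfl, rfl⟩ hfα hfβ
    exact ht ℓ F hF G R J α β c hα hβ hc hPα hPβ hcom k m ρ σ K hL hfα hfβ
  -- finiteness
  have hfA : {φ : R.PJ J → F | φ ∈ IBr F (R.PJ J) ∧ Ovr (R.PJ J) Z ζ φ ∧ Fxd (R.PJ J) φ α ∧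
      Fxd (R.PJ J) φ β ∧ (q → SZJ R φ)}.Finite :=
    (H20.ibf ℓ F hF (R.PJ J)).1.subset fun φ h => h.1
  have hfB : {lam : R.B → F | lam ∈ IBr F R.B ∧ Ovr R.B Z ζ lam ∧ Fxd R.B lam α ∧
      Fxd R.B lam β}.Finite := (H20.ibf ℓ F hF R.B).1.subset fun φ h => h.1
  rw [finsum_mem_eq_finite_toFinset_sum _ hfA, finsum_mem_eq_finite_toFinset_sum _ hfB]
  have e1 : ∀ lam ∈ hfB.toFinset, ((KS J (Ms R lam) (piA R α) (piA R β) q).card : ℂ) *
      τ (tca R.B lam α β c) =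
      ∑ _K ∈ KS J (Ms R lam) (piA R α) (piA R β) q, τ (tca R.B lam α β c) := by
    intro lam _
    rw [Finset.sum_const, nsmul_eq_mul]
  rw [Finset.sum_congr rfl e1, Finset.sum_sigma']
  symm
  have hex : ∀ p ∈ hfB.toFinset.sigma fun lam => KS J (Ms R lam) (piA R α) (piA R β) q,
      ∃ φ, Rel R J φ p.1 p.2 := by
    intro p hp
    rw [Finset.mem_sigma, Set.Finite.mem_toFinset] at hp
    obtain ⟨⟨h8, -⟩, h9⟩ := hp
    have h10 := (Finset.mem_filter.1 h9).2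
    exact rd p.1 h8 p.2 h10.1 h10.2.1
  refine Finset.sum_bij (fun p hp => Classical.choose (hex p hp)) ?_ ?_ ?_ ?_
  · intro p hp
    have hR := Classical.choose_spec (hex p hp)
    rw [Finset.mem_sigma, Set.Finite.mem_toFinset] at hp
    obtain ⟨⟨h8, h9, h10, h11⟩, h12⟩ := hp
    obtain ⟨h13, h14, h15, h16, h17⟩ := (Finset.mem_filter.1 h12).2
    rw [Set.Finite.mem_toFinset]
    exact ⟨(re _ _ _ hR).2.2.1, (rf _ _ _ hR).2 h9,
      (rg α hα hJα hPα hBα _ _ _ hR).2 ⟨h10, h15⟩,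
      (rg β hβ hJβ hPβ hBβ _ _ _ hR).2 ⟨h11, h16⟩, (rh _ _ _ hR).2 h17⟩
  · intro p hp p' hp' he
    have hR := Classical.choose_spec (hex p hp)
    have hR' := Classical.choose_spec (hex p' hp')
    rw [← he] at hR'
    obtain ⟨h8, h9⟩ := rb _ _ _ _ _ hR hR'
    exact Sigma.ext h8 (heq_of_eq h9)
  · intro φ hφ
    rw [Set.Finite.mem_toFinset] at hφ
    obtain ⟨h8, h9, h10, h11, h12⟩ := hφ
    obtain ⟨lam, K, hR⟩ := ra φ h8
    obtain ⟨h13, h14, -, h15⟩ := re _ _ _ hR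
    obtain ⟨h16, h17⟩ := (rg α hα hJα hPα hBα _ _ _ hR).1 h10
    obtain ⟨h18, h19⟩ := (rg β hβ hJβ hPβ hBβ _ _ _ hR).1 h11
    have hmem : (⟨lam, K⟩ : Σ _ : R.B → F, Finset (Fin R.r)) ∈
        hfB.toFinset.sigma fun lam => KS J (Ms R lam) (piA R α) (piA R β) q := by
      rw [Finset.mem_sigma, Set.Finite.mem_toFinset]
      refine ⟨⟨h15, (rf _ _ _ hR).1 h9, h16, h18⟩, ?_⟩
      exact Finset.mem_filter.2 ⟨Finset.mem_univ _, h13, h14, h17, h19, (rh _ _ _ hR).1 h12⟩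
    refine ⟨⟨lam, K⟩, hmem, ?_⟩
    exact rc _ _ _ _ (Classical.choose_spec (hex _ hmem)) hR
  · intro p hp
    have hR := Classical.choose_spec (hex p hp)
    rw [Finset.mem_sigma, Set.Finite.mem_toFinset] at hp
    obtain ⟨⟨h8, h9, h10, h11⟩, h12⟩ := hp
    obtain ⟨h13, h14, h15, h16, h17⟩ := (Finset.mem_filter.1 h12).2
    rw [ri _ _ _ hR ((rg α hα hJα hPα hBα _ _ _ hR).2 ⟨h10, h15⟩)
      ((rg β hβ hJβ hPβ hBβ _ _ _ hR).2 ⟨h11, h16⟩)]

end Pool.Agent.PP.X1.H5
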