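import Pool.Agent.Helper36_X1.Stmts1

/-!
# Squad X1, module RK1
-/

open scoped BigOperators

noncomputable section

namespace Pool.Agent.PP.X1.H5

open Pool.Agent.PP.X1

variable {ℓ : ℕ} {G : Type} [Group G] (R : RGD ℓ G) (i : Fin R.r)

/-- the two cells -/
def Om (g : G) : Prop := (∃ x ∈ R.X (R.a i), ∃ t ∈ R.T, g = x * t) ∨
    ∃ x ∈ R.X (R.a i), ∃ t ∈ R.T, ∃ y ∈ R.X (R.a i), g = x * (R.n i * t) * y

theorem negX {x : G} (hx : x ∈ R.X (-R.a i)) : ∃ y ∈ R.X (R.a i), x = R.n i * y * (R.n i)⁻¹ := by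
  refine ⟨(R.n i)⁻¹ * x * R.n i, ?_, by group⟩
  have h := R.nX' (i := i) (R.mem i) (x := (R.n i)⁻¹ * x * R.n i)
  rw [R.s_self] at h
  rw [← h]
  have : R.n i * ((R.n i)⁻¹ * x * R.n i) * (R.n i)⁻¹ = x := by group
  rw [this]
  exact hx

theorem tXa {t x : G} (ht : t ∈ R.T) (hx : x ∈ R.X (R.a i)) : t * x * t⁻¹ ∈ R.X (R.a i) :=
  R.tX t ht _ (R.mem i) x hx

theorem tXa' {t x : G} (ht : t ∈ R.T) (hx : x ∈ R.X (R.a i)) : t⁻¹ * x * t ∈ R.X (R.a i) := by
  have := R.tX t⁻¹ (inv_mem ht) _ (R.mem i) x hx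
  rwa [inv_inv] at this

theorem nTi {t : G} (ht : t ∈ R.T) : (R.n i)⁻¹ * t * R.n i ∈ R.T := by
  rw [← R.nT' (i := i)]
  have : R.n i * ((R.n i)⁻¹ * t * R.n i) * (R.n i)⁻¹ = t := by group
  rw [this]
  exact ht

theorem om_X {x g : G} (hx : x ∈ R.X (R.a i)) (hg : Om R i g) : Om R i (x * g) := by
  rcases hg with ⟨y, hy, t, ht, rfl⟩ | ⟨y, hy, t, ht, z, hz, rfl⟩
  · exact Or.inl ⟨x * y, mul_mem hx hy, t, ht, by group⟩
  · exact Or.inr ⟨x * y, mul_mem hx hy, t, ht, z, hz, by group⟩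

theorem om_T {s g : G} (hs : s ∈ R.T) (hg : Om R i g) : Om R i (s * g) := by
  rcases hg with ⟨y, hy, t, ht, rfl⟩ | ⟨y, hy, t, ht, z, hz, rfl⟩
  · exact Or.inl ⟨s * y * s⁻¹, tXa R i hs hy, s * t, mul_mem hs ht, by group⟩
  · refine Or.inr ⟨s * y * s⁻¹, tXa R i hs hy, ((R.n i)⁻¹ * s * R.n i) * t,
      mul_mem (nTi R i hs) ht, z, hz, by group⟩

theorem om_n {g : G} (hg : Om R i g) : Om R i (R.n i * g) := by
  rcases hg with ⟨y, hy, t, ht, rfl⟩ | ⟨y, hy, t, ht, z, hz, rfl⟩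
  · refine Or.inr ⟨1, one_mem _, t, ht, t⁻¹ * y * t, tXa' R i ht hy, by group⟩
  · by_cases h1 : y = 1
    · subst h1
      refine Or.inl ⟨(R.n i * R.n i * t) * z * (R.n i * R.n i * t)⁻¹,
        tXa R i (mul_mem (R.nn i) ht) hz, R.n i * R.n i * t, mul_mem (R.nn i) ht, by group⟩
    · obtain ⟨y₁, hy₁, z₁, hz₁, t₁, ht₁, h2⟩ := R.cell i y hy h1
      have h3 : R.n i * (y * (R.n i * t) * z) =
          (R.n i * y * (R.n i)⁻¹) * (R.n i * R.n i * t) * z := by group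
      have hm : R.n i * R.n i * t ∈ R.T := mul_mem (R.nn i) ht
      refine Or.inr ⟨y₁, hy₁, t₁ * (R.n i * R.n i * t), mul_mem ht₁ hm,
        ((R.n i * R.n i * t)⁻¹ * z₁ * (R.n i * R.n i * t)) * z,
        mul_mem (tXa' R i hm hz₁) hz, ?_⟩
      rw [h3, h2]
      group

theorem om_ninv {g : G} (hg : Om R i g) : Om R i ((R.n i)⁻¹ * g) := by
  have h1 : (R.n i)⁻¹ * g = R.n i * ((R.n i * R.n i)⁻¹ * g) := by group
  rw [h1]
  exact om_n R i (om_T R i (inv_mem (R.nn i)) hg)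

theorem om_neg {x g : G} (hx : x ∈ R.X (-R.a i)) (hg : Om R i g) : Om R i (x * g) := by
  obtain ⟨y, hy, rfl⟩ := negX R i hx
  have h1 : R.n i * y * (R.n i)⁻¹ * g = R.n i * (y * ((R.n i)⁻¹ * g)) := by group
  rw [h1]
  exact om_n R i (om_X R i hy (om_ninv R i hg))

/-- the subgroup generated is contained in the union of the two cells -/
theorem om_all {g : G} (hg : g ∈ R.T ⊔ (R.X (R.a i) ⊔ R.X (-R.a i))) : Om R i g := by
  have h1 : Om R i 1 := Or.inl ⟨1, one_mem _, 1, one_mem _, by group⟩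
  have h2 : R.T ⊔ (R.X (R.a i) ⊔ R.X (-R.a i)) =
      Subgroup.closure ((R.T : Set G) ∪ ((R.X (R.a i) : Set G) ∪ (R.X (-R.a i) : Set G))) := by
    rw [Subgroup.closure_union, Subgroup.closure_union, Subgroup.closure_eq, Subgroup.closure_eq,
      Subgroup.closure_eq]
  rw [h2] at hg
  have key : ∀ g ∈ Subgroup.closure
      ((R.T : Set G) ∪ ((R.X (R.a i) : Set G) ∪ (R.X (-R.a i) : Set G))), ∀ h, Om R i h →
      Om R i (g * h) := by
    intro g hg
    induction hg using Subgroup.closure_induction'' with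
    | one =>
      intro h hh
      rwa [one_mul]
    | mem x hx =>
      intro h hh
      rcases hx with hx | hx | hx
      · exact om_T R i hx hh
      · exact om_X R i hx hh
      · exact om_neg R i hx hh
    | inv_mem x hx =>
      intro h hh
      rcases hx with hx | hx | hx
      · exact om_T R i (inv_mem (show x ∈ R.T from hx)) hh
      · exact om_X R i (inv_mem (show x ∈ R.X (R.a i) from hx)) hh
      · exact om_neg R i (inv_mem (show x ∈ R.X (-R.a i) from hx)) hh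
    | mul x y _ _ hx hy =>
      intro h hh
      rw [mul_assoc]
      exact hx _ (hy _ hh)
  have h3 := key g hg 1 h1
  rwa [mul_one] at h3

theorem neg_in_neg : -R.a i ∈ R.neg := by
  refine ⟨R.neg_a_mem i, ?_⟩
  rw [neg_neg]
  exact R.nn_a i

/-- `n i` does not normalise `X (a i)` -/
theorem n_not (h : ∀ x ∈ R.X (R.a i), R.n i * x * (R.n i)⁻¹ ∈ R.X (R.a i)) : False := by
  refine R.nt i ?_
  rw [eq_bot_iff]
  intro x hx
  have h1 := h x hx
  have h2 : R.n i * x * (R.n i)⁻¹ ∈ R.X (-R.a i) := by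
    rw [← R.s_self]
    exact R.nX i _ (R.mem i) x hx
  have h3 : R.n i * x * (R.n i)⁻¹ ∈ R.U ⊓ R.V :=
    ⟨R.X_le_U (R.a_pos i) h1, R.X_le_V (neg_in_neg R i) h2⟩
  rw [R.U_inf_V, Subgroup.mem_bot] at h3
  rw [Subgroup.mem_bot]
  have h4 : x = (R.n i)⁻¹ * (R.n i * x * (R.n i)⁻¹) * R.n i := by group
  rw [h4, h3]
  group

/-- RK1. -/
theorem rk1 : Rk1Stmt := by
  intro ℓ G _ R i
  refine ⟨fun g hg => om_all R i hg, ?_, ?_⟩
  · intro g hg h1 h2
    rcases om_all R i hg with ⟨x, hx, t, ht, rfl⟩ | ⟨x, hx, t, ht, y, hy, rfl⟩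
    · by_cases hx1 : x = 1
      · rw [hx1, one_mul]
        exact ht
      exfalso
      -- `x` normalises the opposite group
      have h3 : ∀ v ∈ R.X (-R.a i), x * v * x⁻¹ ∈ R.X (-R.a i) := by
        intro v hv
        have h4 := R.tX t⁻¹ (inv_mem ht) _ (R.neg_a_mem i) v hv
        have h5 := h2 _ h4
        have h6 : x * t * (t⁻¹ * v * t⁻¹⁻¹) * (x * t)⁻¹ = x * v * x⁻¹ := by group
        rwa [h6] at h5
      obtain ⟨y₁, hy₁, z₁, hz₁, t₁, ht₁, h4⟩ := R.cell i x hx hx1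
      -- `n x n⁻¹` normalises `X (a i)`
      have h5 : ∀ u ∈ R.X (R.a i),
          (R.n i * x * (R.n i)⁻¹) * u * (R.n i * x * (R.n i)⁻¹)⁻¹ ∈ R.X (R.a i) := by
        intro u hu
        have h6 : (R.n i)⁻¹ * u * R.n i ∈ R.X (-R.a i) := by
          rw [← R.nX' (i := i) (R.neg_a_mem i), R.s_neg, R.s_self, neg_neg]
          have : R.n i * ((R.n i)⁻¹ * u * R.n i) * (R.n i)⁻¹ = u := by group
          rw [this]
          exact hu
        have h7 := h3 _ h6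
        have h8 := R.nX i _ (R.neg_a_mem i) _ h7
        have h9 : rf (R.a i) (-R.a i) = R.a i := by
          have : R.s i (-R.a i) = R.a i := by rw [R.s_neg, R.s_self, neg_neg]
          exact this
        rw [h9] at h8
        have h10 : R.n i * (x * ((R.n i)⁻¹ * u * R.n i) * x⁻¹) * (R.n i)⁻¹ =
            (R.n i * x * (R.n i)⁻¹) * u * (R.n i * x * (R.n i)⁻¹)⁻¹ := by group
        rwa [h10] at h8
      refine n_not R i fun u hu => ?_
      have h6 := h5 ((t₁ * z₁)⁻¹ * u * (t₁ * z₁)) (by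
        have h7 : (t₁ * z₁)⁻¹ * u * (t₁ * z₁) = z₁⁻¹ * (t₁⁻¹ * u * t₁) * z₁ := by group
        rw [h7]
        exact mul_mem (mul_mem (inv_mem hz₁) (tXa' R i ht₁ hu)) hz₁)
      rw [h4] at h6
      have h8 : y₁ * (R.n i * t₁) * z₁ * ((t₁ * z₁)⁻¹ * u * (t₁ * z₁)) *
          (y₁ * (R.n i * t₁) * z₁)⁻¹ = y₁ * (R.n i * u * (R.n i)⁻¹) * y₁⁻¹ := by group
      rw [h8] at h6
      have h9 := mul_mem (mul_mem (inv_mem hy₁) h6) hy₁
      have h10 : y₁⁻¹ * (y₁ * (R.n i * u * (R.n i)⁻¹) * y₁⁻¹) * y₁ =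
          R.n i * u * (R.n i)⁻¹ := by group
      rwa [h10] at h9
    · exfalso
      refine n_not R i fun u hu => ?_
      have h6 := h1 ((t * y)⁻¹ * u * (t * y)) (by
        have h7 : (t * y)⁻¹ * u * (t * y) = y⁻¹ * (t⁻¹ * u * t) * y := by group
        rw [h7]
        exact mul_mem (mul_mem (inv_mem hy) (tXa' R i ht hu)) hy)
      have h8 : x * (R.n i * t) * y * ((t * y)⁻¹ * u * (t * y)) * (x * (R.n i * t) * y)⁻¹ =
          x * (R.n i * u * (R.n i)⁻¹) * x⁻¹ := by group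
      rw [h8] at h6
      have h9 := mul_mem (mul_mem (inv_mem hx) h6) hx
      have h10 : x⁻¹ * (x * (R.n i * u * (R.n i)⁻¹) * x⁻¹) * x = R.n i * u * (R.n i)⁻¹ := by
        group
      rwa [h10] at h9
  · intro v hv hv1
    obtain ⟨x, hx, rfl⟩ := negX R i hv
    have hx1 : x ≠ 1 := by
      rintro rfl
      exact hv1 (by group)
    obtain ⟨y, hy, z, hz, t, ht, h⟩ := R.cell i x hx hx1
    refine ⟨y, hy, t, ht, z, hz, h, ht, ?_⟩
    show t ∈ R.X (R.a i) ⊔ R.X (-R.a i)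
    have h1 : t = (R.n i)⁻¹ * y⁻¹ * (R.n i * x * (R.n i)⁻¹) * z⁻¹ := by
      rw [h]
      group
    rw [h1]
    have l1 : R.X (R.a i) ≤ R.X (R.a i) ⊔ R.X (-R.a i) := le_sup_left
    have l2 : R.X (-R.a i) ≤ R.X (R.a i) ⊔ R.X (-R.a i) := le_sup_right
    exact mul_mem (mul_mem (mul_mem (inv_mem (R.nmem i)) (inv_mem (l1 hy))) (l2 hv))
      (inv_mem (l1 hz))

end Pool.Agent.PP.X1.H5
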